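import Pool.Agent.Q120.BH.Neg
import Pool.Agent.Q111.TT.ENTG
import Pool.Agent.Q150.TT.EXI
import Pool.Agent.Q150.TT.MIXL
import Pool.Agent.Q182.BH.Sqa
import Pool.Agent.Q224.BH.BBAD
import Pool.Agent.Q224.BH.DELW
import Pool.Agent.Q225.BH.BHIT
import Pool.Agent.Q257.BH.Bmean
import Pool.Agent.Q299.RZ.Tail

/-!
# The exact entropy thresholds for `n ^ 2 + 1` and the Bateman–Horn conjecture in one variable

The reference law is the sieved Cramér–Granville model of a level `z` (`z k → ∞`, `z k / k → 0`): the elements `n` of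
`[2 ^ k, 2 ^ (k + 1))` are chosen independently with probability `pr z n`, which is `1 / (V log n)` if no prime `p < z k`
divides `n` (`V = ∏_{p < z k} (1 - 1/p)`), and `0` otherwise. `Near (pr z) d μ A`: `A` is ANY random set of integers which
almost surely only contains `n` with `pr z n > 0`, and for all large `k` the relative entropy (nats) of the law of
`A ∩ [2 ^ k, 2 ^ (k + 1))` with respect to the reference law is at most `d k`. `Good F m C`: `F` is an integer polynomial of
degree `m ≥ 1` with positive leading coefficient, for which the product of Bateman and Horn converges to `C > 0`.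
-/

set_option autoImplicit false

namespace Pool.Agent.Results.MP_484c84_nt.EntropyThresholdsForPolynomials

open Finset MeasureTheory Filter Polynomial Pool.Agent.Q120.ET Pool.Agent.Q120.CL Pool.Agent.Q120.TT Pool.Agent.Q120.BH
open scoped Topology

theorem jobs : Pool.Agent.Q120.BH.Jobs where
  entg := Pool.Agent.Q111.TT.t_ENTG
  mixl := Pool.Agent.Q150.TT.t_MIXL
  exi := Pool.Agent.Q150.TT.t_EXI
  exc := Pool.Agent.Q150.TT.t_EXC
  tail := Q299.RZ.t_TAIL
  mono := Pool.Agent.Q257.BH.t_MONO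
  btail := Pool.Agent.Q225.BH.t_BTAIL
  bmean := Pool.Agent.Q257.BH.t_BMEAN
  bbad := Pool.Agent.Q224.BH.t_BBAD
  bcum := Pool.Agent.Q224.BH.t_BCUM
  bhit := Pool.Agent.Q225.BH.t_BHIT
  delw := Pool.Agent.Q224.BH.t_DELW
  wset := Pool.Agent.Q257.BH.t_WSET

/-- For every level `z` with `z k → ∞`, `z k / k → 0`:
(I) for `Good F m C`, values increasing from `n₀` on, and all budgets `d`:
(1) `#{n < x : F n ∈ A} ~ (C / m) x / log x` almost surely for all laws iff `∑ d k * k / 2 ^ (k / m) < ∞`, iff almost surely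
all large blocks `[2 ^ k, 2 ^ (k + 1))` contain a value of `F` in `A`; otherwise almost surely infinitely many contain none,
for some law; (2) the number of values in the block is right in probability for all laws iff `d k * k / 2 ^ (k / m) → 0`, iff
the probability of a block without values tends to `0` for all laws; (3) `A` contains almost surely infinitely many values,
for all laws, iff `liminf d k * k / 2 ^ (k / m) = 0`;
(II) for `d k = 2 ^ (δ k)` almost surely the asymptotics hold for ALL good polynomials of degree `m < 1 / δ` at once, and some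
`A` of the class contains almost surely only finitely many values of EVERY polynomial of degree `> 1 / δ`;
(III) every polynomial `F` of degree `≥ 1` with positive leading coefficient has such an `n₀`, and `X ^ 2 + a` is good for
every `a` for which `-a` is not a square; for `X ^ 2 + 1` one may take `n₀ = 0`. -/
theorem result (z : ℕ → ℕ) (hz : Tendsto z atTop atTop) (hz0 : Tendsto (fun k : ℕ => (z k : ℝ) / k) atTop (𝓝 0)) :
    (∀ (F : ℤ[X]) (m n₀ : ℕ) (C : ℝ), Good F m C → Mono F n₀ → ∀ d : ℕ → ℝ, (∀ k, 0 ≤ d k) →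
      ((Summable (fun k : ℕ => d k * k / (2 : ℝ) ^ ((k : ℝ) / m)) ↔ AllNear (pr z) d (fun S => Asy S F m C)) ∧
        (Summable (fun k : ℕ => d k * k / (2 : ℝ) ^ ((k : ℝ) / m)) ↔
          AllNear (pr z) d (fun S => ∀ᶠ k in atTop, HitB S F n₀ k)) ∧
        (¬ Summable (fun k : ℕ => d k * k / (2 : ℝ) ^ ((k : ℝ) / m)) →
          SomeNear (pr z) d (fun S => ∃ᶠ k in atTop, ¬ HitB S F n₀ k))) ∧
      ((Tendsto (fun k : ℕ => d k * k / (2 : ℝ) ^ ((k : ℝ) / m)) atTop (𝓝 0) ↔
          ∀ e : ℝ, 0 < e → VanNear (pr z) d (fun k S => OffB F m n₀ C e k S)) ∧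
        (Tendsto (fun k : ℕ => d k * k / (2 : ℝ) ^ ((k : ℝ) / m)) atTop (𝓝 0) ↔
          VanNear (pr z) d (fun k S => ¬ HitB S F n₀ k))) ∧
      ((∀ c : ℝ, 0 < c → ∃ᶠ k : ℕ in atTop, d k * k / (2 : ℝ) ^ ((k : ℝ) / m) < c) ↔
        AllNear (pr z) d (fun S => {n : ℕ | va F n ∈ S}.Infinite))) ∧
    (∀ δ : ℝ, 0 < δ →
      AllNear (pr z) (fun k : ℕ => (2 : ℝ) ^ (δ * k))
        (fun S => ∀ (F : ℤ[X]) (m : ℕ) (C : ℝ), Good F m C → δ * m < 1 → Asy S F m C) ∧
      SomeNear (pr z) (fun k : ℕ => (2 : ℝ) ^ (δ * k))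
        (fun S => ∀ F : ℤ[X], 0 < F.leadingCoeff → 1 < δ * F.natDegree → {n : ℕ | va F n ∈ S}.Finite)) ∧
    (∀ F : ℤ[X], 1 ≤ F.natDegree → 0 < F.leadingCoeff → ∃ n₀ : ℕ, Mono F n₀) ∧
    (∀ a : ℤ, ¬ IsSquare (-a) → ∃ C : ℝ, Good (X ^ 2 + Polynomial.C a) 2 C) ∧
    Mono (X ^ 2 + Polynomial.C 1) 0 := by
  refine ⟨fun F m n₀ C hF hM d hd => ⟨part_one jobs hz hz0 hF hM hd, part_two jobs hz hz0 hF hM hd,
    part_three jobs hz hz0 hF hM⟩, fun δ hδ => ⟨part_four jobs hz hz0 (fun k => ⟨by positivity, le_rfl⟩),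
    part_five jobs (small8 hz0) hδ⟩, fun F h1 h2 => (jobs.mono F h1 h2).1, Pool.Agent.Q182.BH.t_SQA, ?_⟩
  intro n _
  have h1 : ∀ n : ℕ, va (X ^ 2 + Polynomial.C 1) n = n ^ 2 + 1 := by
    intro n
    unfold va
    rw [Pool.Agent.Q182.BH.eval_eq]
    exact_mod_cast Int.toNat_natCast (n ^ 2 + 1)
  rw [h1, h1]
  constructor
  · omega
  · have : n ^ 2 < (n + 1) ^ 2 := Nat.pow_lt_pow_left (by omega) (by norm_num)
    omega

end Pool.Agent.Results.MP_484c84_nt.EntropyThresholdsForPolynomials
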