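import Pool.Agent.Q145.HQ.All

set_option autoImplicit false
set_option maxHeartbeats 4000000

/-!
# The Hardy-Littlewood-Chowla law along the primes `n² + a`, for almost all long tuples of shifts

Let `P_a` be the set of the `Y < n ≤ 2Y` for which `n² + a_1, ..., n² + a_K` are all prime.  For almost all admissible
`a ∈ (4Y², 8Y²]^K` the set `P_a` has `(1 + o(1)) 𝔖(a) Y / log^K (4Y²)` elements (Hardy-Littlewood, with the full singular
series), and the signs `λ(f_1(n) + t_1), ..., λ(f_L(n) + t_L)` of the Liouville function along `P_a`, for any given linear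
or quadratic polynomials `f_j` (e.g. `λ(n + t)`, `λ(n² + t)`), are independent and uniform, and independent of any given
weight `w(n)`, in mean square over the `t_j`, `1 ≤ t_j ≤ G_j`, `G_j` the size of `f_j`.  Here `K`, `L` and the ratios
`G_j / Y^(deg f_j)` grow with `Y`, up to a bound `Q`:

* for every `Y` and `Q = A log log Y`;
* for arbitrarily large `Y` and `Q = c log Y / log log Y` (for `K` the natural range up to the constant);
* for every `Y` and `Q = c log Y / log log Y`, unless there is an exceptional zero.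
-/

namespace Pool.Agent.Results.MP_484c84_nt.HardyLittlewoodChowla

open Finset Filter Polynomial

open scoped Classical

/-- For a prime `p`: the number of classes `n` modulo `p` for which `p` divides one of the `n² + a_i`. -/
def classes {K : ℕ} (a : Fin K → ℕ) (p : ℕ) : ℕ := ((range p).filter fun n : ℕ => ∃ i, p ∣ n ^ 2 + a i).card

/-- The product of the `n² + a_i` has no fixed prime divisor. -/
def Admissible {K : ℕ} (a : Fin K → ℕ) : Prop := ∀ p : ℕ, p.Prime → classes a p < p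

/-- The partial products (primes up to `w`) of the singular series of the `n² + a_i`. -/
noncomputable def partialSeries {K : ℕ} (a : Fin K → ℕ) (w : ℕ) : ℝ :=
  ∏ p ∈ (Icc 1 w).filter Nat.Prime, (1 - (classes a p : ℝ) / p) / (1 - 1 / (p : ℝ)) ^ K

/-- The singular series: the limit of the partial products. -/
noncomputable def series {K : ℕ} (a : Fin K → ℕ) : ℝ := limUnder atTop (partialSeries a)

/-- The `Y < n ≤ 2 Y` for which all the `n² + a_i` are prime. -/
def points {K : ℕ} (Y : ℕ) (a : Fin K → ℕ) : Finset ℕ := (Ioc Y (2 * Y)).filter fun n => ∀ i, (n ^ 2 + a i).Prime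

/-- The Liouville function. -/
noncomputable def liouville (n : ℕ) : ℝ := (-1) ^ (ArithmeticFunction.cardFactors n)

/-- The admissible `a` with `4 Y² < a_i ≤ 8 Y²`. -/
noncomputable def shifts (Y K : ℕ) : Finset (Fin K → ℕ) :=
  (Fintype.piFinset fun _ => Ioc (4 * Y ^ 2) (8 * Y ^ 2)).filter Admissible

/-- The arguments of the Liouville function: the `f_j` are linear or quadratic polynomials with
`5 G_j / 4 < f_j(n) ≤ 2 G_j` for `Y < n ≤ 2 Y`, where `G_j` is between `Y^d` and `Q Y^d`, `d` the degree of `f_j`. -/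
structure Arguments (Q Y : ℕ) {L : ℕ} (G : Fin L → ℕ) (f : Fin L → ℤ[X]) : Prop where
  deg : ∀ j, (f j).natDegree = 1 ∨ (f j).natDegree = 2
  scale : ∀ j, Y ^ (f j).natDegree ≤ G j ∧ G j ≤ Q * Y ^ (f j).natDegree
  val : ∀ j, ∀ n ∈ Ioc Y (2 * Y), 5 * (G j : ℤ) < 4 * (f j).eval (n : ℤ) ∧ (f j).eval (n : ℤ) ≤ 2 * G j

/-- The deviation for the weight `w`, the signs `e` and the shifts `t`:
`|2^L ∑ w(n) [λ(f_j(n) + t_j) = e_j for all j] - ∑ w(n)|`, the sums over the points of `a`. -/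
noncomputable def deviation {K L : ℕ} (Y : ℕ) (a : Fin K → ℕ) (f : Fin L → ℤ[X]) (e : Fin L → ℝ) (w : ℕ → ℂ) (t : Fin L → ℕ) : ℝ :=
  ‖(2 : ℂ) ^ L * (∑ n ∈ (points Y a).filter fun n : ℕ => ∀ j, liouville (((f j).eval (n : ℤ)).toNat + t j) = e j, w n) -
    ∑ n ∈ points Y a, w n‖

/-- The tuple `a` obeys the law with precision `ε` for the arguments `f_j + t_j`, `1 ≤ t_j ≤ G_j`. -/
def Obeys {K L : ℕ} (Y : ℕ) (G : Fin L → ℕ) (f : Fin L → ℤ[X]) (ε : ℝ) (a : Fin K → ℕ) : Prop :=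
  0 < series a ∧ Tendsto (partialSeries a) atTop (nhds (series a)) ∧
  |(points Y a).card * Real.log (4 * Y ^ 2) ^ K - series a * Y| ≤ ε * (series a * Y) ∧
  ∀ (e : Fin L → ℝ) (w : ℕ → ℂ), (∀ j, e j = 1 ∨ e j = -1) → (∀ n, ‖w n‖ ≤ 1) →
    ∑ t ∈ Fintype.piFinset (fun j : Fin L => Icc 1 (G j)), (deviation Y a f e w t * Real.log (4 * Y ^ 2) ^ K) ^ 2 ≤
      (∏ j, (G j : ℝ)) * (ε * (series a * Y)) ^ 2

/-- The law holds for all but a proportion at most `ε` of the admissible `a ∈ (4 Y², 8 Y²]^K`. -/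
def Law {L : ℕ} (Y K : ℕ) (G : Fin L → ℕ) (f : Fin L → ℤ[X]) (ε : ℝ) : Prop :=
  (((shifts Y K).filter fun a => ¬ Obeys Y G f ε a).card : ℝ) ≤ ε * (shifts Y K).card

/-- The law for `K + L ≤ Q` and all arguments with parameter `Q`. -/
def Holds (Y Q : ℕ) (ε : ℝ) : Prop :=
  ∀ K L : ℕ, K + L ≤ Q → ∀ (G : Fin L → ℕ) (f : Fin L → ℤ[X]), Arguments Q Y G f → Law Y K G f ε

/-- There is no exceptional zero at the scale `Y`: the real zeros `β` of the primitive quadratic
characters of conductor `1 < r ≤ exp (log Y / log log Y)` are at most `1 - C log log Y / log Y`. -/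
def NoExceptionalZero (C : ℝ) (Y : ℕ) : Prop :=
  ∀ (r : ℕ) [NeZero r], 1 < r → (r : ℝ) ≤ Real.exp (Real.log Y / Real.log (Real.log Y)) →
    ∀ χ : DirichletCharacter ℂ r, χ.IsPrimitive → χ ^ 2 = 1 → ∀ β : ℝ, χ.LFunction β = 0 →
      β ≤ 1 - C * (Real.log (Real.log Y) / Real.log Y)

open Pool.Agent.Q145.LQ Pool.Agent.Q145.HQ Pool.Agent.Q145.HC

/-- the polynomial `x² + 4 Y²` -/
noncomputable def bq (Y : ℕ) : ℤ[X] := X ^ 2 + C (4 * (Y : ℤ) ^ 2)

/-- the shift by `4 Y²` -/
def sh {K : ℕ} (Y : ℕ) (s : Fin K → ℕ) : Fin K → ℕ := fun i => s i + 4 * Y ^ 2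

theorem bq_eval (Y n : ℕ) : (bq Y).eval (n : ℤ) = ((n ^ 2 + 4 * Y ^ 2 : ℕ) : ℤ) := by
  unfold bq
  simp only [eval_add, eval_pow, eval_X, eval_C]
  push_cast
  ring

theorem bq_deg (Y : ℕ) : (bq Y).natDegree = 2 := by
  unfold bq
  compute_degree!

theorem classes_eq {K : ℕ} (Y : ℕ) (s : Fin K → ℕ) (p : ℕ) : classes (sh Y s) p = nuQ (fun _ => bq Y) s p := by
  unfold classes nuQ
  congr 1
  apply filter_congr
  intro n _
  refine exists_congr fun i => ?_
  have e : (bq Y).eval (n : ℤ) + (s i : ℤ) = ((n ^ 2 + (s i + 4 * Y ^ 2) : ℕ) : ℤ) := by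
    rw [bq_eval]
    push_cast
    ring
  rw [e, Int.natCast_dvd_natCast]
  rfl

theorem adm_iff {K : ℕ} (Y : ℕ) (s : Fin K → ℕ) : Admissible (sh Y s) ↔ AdmQ (fun _ => bq Y) s := by
  unfold Admissible AdmQ
  simp only [classes_eq]

theorem partial_eq {K : ℕ} (Y : ℕ) (s : Fin K → ℕ) : partialSeries (sh Y s) = singPQ (fun _ => bq Y) s := by
  funext w
  unfold partialSeries singPQ locQ
  simp only [classes_eq]

theorem series_eq {K : ℕ} (Y : ℕ) (s : Fin K → ℕ) : series (sh Y s) = singQ (fun _ => bq Y) s := by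
  unfold series singQ
  rw [partial_eq]

theorem points_eq {K : ℕ} (Y : ℕ) (s : Fin K → ℕ) : points Y (sh Y s) = ptsQ Y (fun _ => bq Y) s := by
  unfold points ptsQ
  apply filter_congr
  intro n _
  refine forall_congr' fun i => ?_
  have e : vq (bq Y) n + s i = n ^ 2 + sh Y s i := by
    unfold vq sh
    rw [bq_eval, Int.toNat_natCast]
    ring
  rw [e]

theorem obeys_iff {K L : ℕ} (Y : ℕ) (G : Fin L → ℕ) (f : Fin L → ℤ[X]) (ε : ℝ) (s : Fin K → ℕ) :
    Obeys Y G f ε (sh Y s) ↔ (0 < singQ (fun _ => bq Y) s ∧ Tendsto (singPQ (fun _ => bq Y) s) atTop (nhds (singQ (fun _ => bq Y) s)) ∧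
      |cntQ Y (fun _ => bq Y) s * ∏ _i : Fin K, Real.log ((4 * Y ^ 2 : ℕ) : ℝ) - singQ (fun _ => bq Y) s * Y| ≤ ε * (singQ (fun _ => bq Y) s * Y) ∧
      SignsQ Y (fun _ => 4 * Y ^ 2) (fun _ => bq Y) G f ε s) := by
  have hl : ∏ _i : Fin K, Real.log ((4 * Y ^ 2 : ℕ) : ℝ) = Real.log (4 * Y ^ 2) ^ K := by
    rw [prod_const, card_univ, Fintype.card_fin]
    push_cast
    rfl
  have hc : cntQ Y (fun _ => bq Y) s = (points Y (sh Y s)).card := by
    rw [points_eq, ptsQ_card]
  unfold Obeys SignsQ deviation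
  rw [hl, hc, series_eq, partial_eq, points_eq]
  rfl

theorem sh_inj {K : ℕ} (Y : ℕ) : Function.Injective (sh Y : (Fin K → ℕ) → Fin K → ℕ) := by
  intro s t h
  funext i
  have := congrFun h i
  unfold sh at this
  omega

theorem image_eq (Y K : ℕ) : (ATQ (fun _ : Fin K => 4 * Y ^ 2) (fun _ => bq Y)).image (sh Y) = shifts Y K := by
  ext a
  rw [mem_image]
  unfold ATQ shifts
  constructor
  · rintro ⟨s, hs, rfl⟩
    rw [mem_filter, Fintype.mem_piFinset] at hs ⊢
    refine ⟨fun i => ?_, (adm_iff Y s).2 hs.2⟩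
    have := hs.1 i
    simp only [mem_Icc] at this
    rw [mem_Ioc]
    unfold sh
    omega
  · intro ha
    rw [mem_filter, Fintype.mem_piFinset] at ha
    have e : sh Y (fun i => a i - 4 * Y ^ 2) = a := by
      funext i
      have := ha.1 i
      rw [mem_Ioc] at this
      unfold sh
      simp only
      omega
    refine ⟨fun i => a i - 4 * Y ^ 2, ?_, e⟩
    rw [mem_filter, Fintype.mem_piFinset]
    refine ⟨fun i => ?_, (adm_iff Y _).1 (by rw [e]; exact ha.2)⟩
    have := ha.1 i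
    rw [mem_Ioc] at this
    simp only [mem_Icc]
    omega

theorem card_eq (Y K : ℕ) (P : (Fin K → ℕ) → Prop) [DecidablePred P] :
    ((shifts Y K).filter P).card = ((ATQ (fun _ : Fin K => 4 * Y ^ 2) (fun _ => bq Y)).filter fun s => P (sh Y s)).card := by
  rw [← image_eq, filter_image, card_image_of_injective _ (sh_inj Y)]

theorem law_of {K L Y : ℕ} {G : Fin L → ℕ} {f : Fin L → ℤ[X]} {ε : ℝ} (h : HLL Y (fun _ : Fin K => 4 * Y ^ 2) (fun _ => bq Y) G f ε) : Law Y K G f ε := by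
  unfold HLL at h
  unfold Law
  have e1 : (shifts Y K).card = (ATQ (fun _ : Fin K => 4 * Y ^ 2) (fun _ => bq Y)).card := by
    rw [← image_eq, card_image_of_injective _ (sh_inj Y)]
  rw [card_eq, e1]
  simp only [obeys_iff]
  exact h

theorem sys_bq (Q Y K : ℕ) (hQ : 4 ≤ Q) : Sys 2 Q Y (Y ^ 2) (fun _ : Fin K => 4 * Y ^ 2) (fun _ => bq Y) where
  deg := fun _ => by rw [bq_deg]; norm_num
  lead := fun _ => by
    have : (bq Y).leadingCoeff = 1 := by
      unfold leadingCoeff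
      rw [bq_deg]
      unfold bq
      rw [coeff_add, coeff_X_pow, coeff_C]
      simp
    rw [this]
    simp
    omega
  scale := fun _ => ⟨by nlinarith [sq_nonneg Y], Nat.mul_le_mul_right _ hQ⟩
  val := fun _ n hn => by
    rw [mem_Ioc] at hn
    obtain ⟨h1, h2⟩ := hn
    have h1' : (Y : ℤ) + 1 ≤ n := by exact_mod_cast h1
    have h2' : (n : ℤ) ≤ 2 * Y := by exact_mod_cast h2
    have h0 : (0 : ℤ) ≤ Y := by positivity
    rw [bq_eval]
    push_cast
    constructor <;> nlinarith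

theorem holds_of {Y Q : ℕ} {ε : ℝ} (h : PQL Y (96 * (Q + 1)) ε) : Holds Y Q ε := by
  intro K L hKL G f hA
  apply law_of
  refine h K L (fun _ => 4 * Y ^ 2) (fun _ => bq Y) G f (by omega) (sys_bq _ _ _ (by omega)) (fun _ => bq_deg Y) ?_
  exact ⟨hA.deg, fun j => ⟨(hA.scale j).1, (hA.scale j).2.trans (Nat.mul_le_mul_right _ (by omega))⟩, hA.val⟩

theorem arg1 (Q Y L : ℕ) (hQ : 4 ≤ Q) : Arguments Q Y (fun _ : Fin L => 4 * Y) (fun _ => X + C (4 * (Y : ℤ))) := by
  have hd : (X + C (4 * (Y : ℤ)) : ℤ[X]).natDegree = 1 := by compute_degree!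
  refine ⟨fun _ => Or.inl hd, fun _ => ?_, fun _ n hn => ?_⟩
  · rw [hd, pow_one]
    exact ⟨by omega, Nat.mul_le_mul_right _ hQ⟩
  · rw [mem_Ioc] at hn
    simp only [eval_add, eval_X, eval_C]
    push_cast
    omega

theorem arg2 (Q Y L : ℕ) (hQ : 4 ≤ Q) : Arguments Q Y (fun _ : Fin L => 4 * Y ^ 2) (fun _ => X ^ 2 + C (4 * (Y : ℤ) ^ 2)) := by
  have h := sys_bq Q Y L hQ
  exact ⟨fun j => Or.inr (bq_deg Y), fun j => by
    have e : (X ^ 2 + C (4 * (Y : ℤ) ^ 2) : ℤ[X]).natDegree = 2 := bq_deg Y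
    rw [e]
    exact h.scale j, h.val⟩

theorem conv {K : ℕ} (a : Fin K → ℕ) (hi : Function.Injective a) (h1 : ∀ i, 1 ≤ a i) (ha : Admissible a) :
    Tendsto (partialSeries a) atTop (nhds (series a)) ∧ 0 < series a := by
  have e : sh 0 a = a := by
    funext i
    unfold sh
    simp
  have hb : bq 0 = X ^ 2 := by
    unfold bq
    simp
  have h := t_CONVQ K (fun _ => bq 0) a (fun _ => bq_deg 0) (fun i => ?_) (fun i j hij => ?_) ((adm_iff 0 a).1 (by rw [e]; exact ha))
  · rw [← partial_eq, ← series_eq, e] at h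
    exact h
  · rintro ⟨r, hr⟩
    have h2 := h1 i
    have c1 : (bq 0).coeff 1 = 0 := by rw [hb, coeff_X_pow]; simp
    have c2 : (bq 0).coeff 2 = 1 := by rw [hb, coeff_X_pow]; simp
    have c0 : (bq 0).coeff 0 = 0 := by rw [hb, coeff_X_pow]; simp
    rw [c1, c2, c0] at hr
    have : (1 : ℤ) ≤ (a i : ℤ) := by exact_mod_cast h2
    nlinarith [mul_self_nonneg r]
  · rintro ⟨u, v, hu, hv, huv⟩
    rw [hb] at huv
    have h2 := congrArg (fun p => p.coeff 2) huv
    have h0 := congrArg (fun p => p.coeff 0) huv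
    simp only [coeff_C_mul, coeff_add, coeff_X_pow, coeff_C] at h2 h0
    simp at h2 h0
    rw [h2] at h0
    have h3 : (a i : ℤ) = a j := by
      rcases mul_eq_mul_left_iff.1 h0 with h | h
      · exact h
      · exact absurd h hv
    exact hij (hi (by exact_mod_cast h3))

/-- **Theorem.** (0) Examples of arguments: `n + 4Y + t`, `1 ≤ t ≤ 4Y`, and `n² + 4Y² + t`, `1 ≤ t ≤ 4Y²`; the singular
series converges and is positive for admissible tuples of distinct positive integers. The Hardy-Littlewood-Chowla law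
along the primes `n² + a_i`, for almost all `a`: (1) for every large `Y` and `Q = A log log Y`; (2) for arbitrarily large
`Y` and `Q = c log Y / log log Y`; (3) for every large `Y` and `Q = c log Y / log log Y`, unless there is an exceptional
zero at the scale `Y`. -/
theorem result :
    ((∀ Q Y L : ℕ, 4 ≤ Q → Arguments Q Y (fun _ : Fin L => 4 * Y) (fun _ => X + C (4 * (Y : ℤ))) ∧
        Arguments Q Y (fun _ : Fin L => 4 * Y ^ 2) (fun _ => X ^ 2 + C (4 * (Y : ℤ) ^ 2))) ∧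
      (∀ (K : ℕ) (a : Fin K → ℕ), Function.Injective a → (∀ i, 1 ≤ a i) → Admissible a →
        Tendsto (partialSeries a) atTop (nhds (series a)) ∧ 0 < series a)) ∧
    (∀ A ε : ℝ, 0 < ε → ∀ᶠ Y : ℕ in atTop, ∀ Q : ℕ, (Q : ℝ) ≤ A * Real.log (Real.log Y) → Holds Y Q ε) ∧
    (∃ c : ℝ, 0 < c ∧ ∀ ε : ℝ, 0 < ε → ∃ᶠ Y : ℕ in atTop, ∀ Q : ℕ,
      (Q : ℝ) ≤ c * (Real.log Y / Real.log (Real.log Y)) → Holds Y Q ε) ∧
    (∃ c C : ℝ, 0 < c ∧ 0 < C ∧ ∀ ε : ℝ, 0 < ε → ∀ᶠ Y : ℕ in atTop, NoExceptionalZero C Y →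
      ∀ Q : ℕ, (Q : ℝ) ≤ c * (Real.log Y / Real.log (Real.log Y)) → Holds Y Q ε) := by
  have hLL : Tendsto (fun Y : ℕ => Real.log Y / Real.log (Real.log Y)) atTop atTop := by
    have h1 : Tendsto (fun x : ℝ => x / Real.log x) atTop atTop := by
      have h2 : Tendsto (fun x : ℝ => Real.log x / x) atTop (nhdsWithin 0 (Set.Ioi 0)) := by
        rw [tendsto_nhdsWithin_iff]
        refine ⟨?_, ?_⟩
        · have := Real.isLittleO_log_id_atTop.tendsto_div_nhds_zero
          simpa using this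
        · filter_upwards [eventually_gt_atTop 1] with x hx
          have := Real.log_pos hx
          exact div_pos this (by linarith)
      refine (tendsto_inv_nhdsGT_zero.comp h2).congr fun x => ?_
      simp
    exact h1.comp Pool.Agent.Q145.SZ.log_tendsto
  refine ⟨⟨fun Q Y L hQ => ⟨arg1 Q Y L hQ, arg2 Q Y L hQ⟩, fun K a h1 h2 h3 => conv a h1 h2 h3⟩, ?_, ?_, ?_⟩
  · intro A ε hε
    filter_upwards [Pool.Agent.Q145.HQ.mainA1 (192 * |A| + 192) ε hε, Pool.Agent.Q145.SZ.ll_tendsto.eventually_ge_atTop 1] with Y h hY Q hQ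
    apply holds_of
    apply h
    have h1 : A * Real.log (Real.log Y) ≤ |A| * Real.log (Real.log Y) := mul_le_mul_of_nonneg_right (le_abs_self A) (by linarith)
    have h2 : 0 ≤ |A| * Real.log (Real.log Y) := mul_nonneg (abs_nonneg A) (by linarith)
    push_cast
    nlinarith
  · obtain ⟨c, hc, h⟩ := Pool.Agent.Q145.HQ.mainA2
    refine ⟨c / 192, by positivity, fun ε hε => ?_⟩
    refine ((h ε hε).and_eventually (hLL.eventually_ge_atTop (192 / c))).mono ?_
    rintro Y ⟨h1, h2⟩ Q hQ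
    apply holds_of
    apply h1
    rw [div_le_iff₀ hc] at h2
    push_cast
    linarith
  · obtain ⟨c, C, hc, hC, h⟩ := Pool.Agent.Q145.HQ.mainA3
    refine ⟨c / 192, C, by positivity, hC, fun ε hε => ?_⟩
    filter_upwards [h ε hε, hLL.eventually_ge_atTop (192 / c)] with Y h1 h2 hne Q hQ
    apply holds_of
    apply h1 hne
    rw [div_le_iff₀ hc] at h2
    push_cast
    linarith

end Pool.Agent.Results.MP_484c84_nt.HardyLittlewoodChowla
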