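import Pool.Agent.Q178.RS.Final

/-!
The rescaled squares `⌊α n^2⌋` (and `⌊α n^c⌋`, `c > 1`): outside ONE set `E` of real numbers `α` of
Hausdorff dimension `< 1`, power saving laws for `N^κ` arbitrary sets of integers at once, primes in
residue classes with uniformity in the shift and the modulus, prime number theorem, clusters of primes,
coloured Maynard-Tao theorem.
-/

set_option autoImplicit false

open Finset Filter MeasureTheory

namespace Pool.Agent.Results.MP_484c84_nt.RescaledSquares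

open Pool.Agent.Q178.RS Pool.Agent.H706R2.PS Pool.Agent.H732R3.BigQ

/-- code of `(q, b, a)` -/
def code (q b : ℕ) (a : ℤ) : ℕ := Nat.pair (Nat.pair q (b % q)) (Nat.pair a.toNat (-a).toNat)

/-- the set with a given code -/
def seqP (k : ℕ) : Set ℕ := shiftZ (PQ k.unpair.1.unpair.1 k.unpair.1.unpair.2)
  ((k.unpair.2.unpair.1 : ℤ) - (k.unpair.2.unpair.2 : ℤ))

theorem seqP_code (q b : ℕ) (a : ℤ) : seqP (code q b a) = shiftZ (PQ q b) a := by
  unfold seqP code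
  rw [Nat.unpair_pair, Nat.unpair_pair, Nat.unpair_pair]
  have h1 : ((a.toNat : ℤ) - ((-a).toNat : ℤ)) = a := Int.toNat_sub_toNat_neg a
  have h2 : PQ q (b % q) = PQ q b := by
    unfold PQ
    ext p
    simp only [Set.mem_ofPred_eq, Nat.ModEq, Nat.mod_mod]
  simp only [h1, h2]

theorem code_le {q b : ℕ} {a : ℤ} {Z : ℝ} (hq : 0 < q) (hqZ : (q : ℝ) ≤ Z) (ha : |(a : ℝ)| ≤ Z) :
    (code q b a : ℝ) ≤ 25 * Z ^ 4 := by
  have hZ : 1 ≤ Z := le_trans (by exact_mod_cast hq) hqZ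
  have h1 : (Nat.pair q (b % q) : ℝ) ≤ 4 * Z ^ 2 := by
    have h2 : Nat.pair q (b % q) < (max q (b % q) + 1) ^ 2 := Nat.pair_lt_max_add_one_sq _ _
    rw [max_eq_left (Nat.mod_lt b hq).le] at h2
    have h3 : (Nat.pair q (b % q) : ℝ) ≤ ((q : ℝ) + 1) ^ 2 := by exact_mod_cast h2.le
    nlinarith
  have h4 : (Nat.pair a.toNat (-a).toNat : ℝ) ≤ 4 * Z ^ 2 := by
    have h2 : Nat.pair a.toNat (-a).toNat < (max a.toNat (-a).toNat + 1) ^ 2 :=
      Nat.pair_lt_max_add_one_sq _ _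
    have h3 : max a.toNat (-a).toNat ≤ a.natAbs := by omega
    have h5 : Nat.pair a.toNat (-a).toNat ≤ (a.natAbs + 1) ^ 2 :=
      h2.le.trans (Nat.pow_le_pow_left (by omega) 2)
    have h6 : (Nat.pair a.toNat (-a).toNat : ℝ) ≤ ((a.natAbs : ℝ) + 1) ^ 2 := by exact_mod_cast h5
    have h7 : (a.natAbs : ℝ) ≤ Z := by
      rw [Nat.cast_natAbs]
      push_cast
      exact ha
    have h8 : (0 : ℝ) ≤ (a.natAbs : ℝ) := Nat.cast_nonneg _
    nlinarith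
  have h5 : code q b a < (max (Nat.pair q (b % q)) (Nat.pair a.toNat (-a).toNat) + 1) ^ 2 :=
    Nat.pair_lt_max_add_one_sq _ _
  have h6 : (code q b a : ℝ) ≤ ((max (Nat.pair q (b % q)) (Nat.pair a.toNat (-a).toNat) : ℕ) + 1 : ℝ) ^ 2 := by
    exact_mod_cast h5.le
  have h7 : ((max (Nat.pair q (b % q)) (Nat.pair a.toNat (-a).toNat) : ℕ) : ℝ) ≤ 4 * Z ^ 2 := by
    rw [Nat.cast_max]
    exact max_le h1 h4
  have h8 : (0 : ℝ) ≤ ((max (Nat.pair q (b % q)) (Nat.pair a.toNat (-a).toNat) : ℕ) : ℝ) := Nat.cast_nonneg _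
  have h9 : (((max (Nat.pair q (b % q)) (Nat.pair a.toNat (-a).toNat) : ℕ) + 1 : ℝ)) ≤ 5 * Z ^ 2 := by nlinarith
  calc (code q b a : ℝ) ≤ _ := h6
    _ ≤ (5 * Z ^ 2) ^ 2 := by gcongr
    _ = 25 * Z ^ 4 := by ring

/-- the set of the coloured Maynard-Tao theorem -/
def CMT (T K : ℕ) (a b : Fin T → Fin K → ℤ) : Set ℕ := {m | ∃ S : Finset (Fin T), T ≤ 4 * S.card ∧
  ∀ g ∈ S, ∃ i, 0 < a g i * (m : ℤ) + b g i ∧ Prime (a g i * (m : ℤ) + b g i)}

theorem cmt_many (T K : ℕ) (a b : Fin T → Fin K → ℤ)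
    (h : ∀ η : ℝ, 0 < η → ∀ᶠ x : ℝ in atTop,
    ∃ (S : Finset (Fin T)) (c : Fin T → Fin K), T ≤ 4 * S.card ∧ x ^ (1 - η) ≤
      ({n : ℕ | n ∈ {n : ℕ | ∀ g ∈ S, 0 < a g (c g) * (n : ℤ) + b g (c g) ∧
        Prime (a g (c g) * (n : ℤ) + b g (c g))} ∧ (n : ℝ) ≤ x}.ncard : ℝ)) (η : ℝ) (hη : 0 < η) :
    ∀ᶠ n : ℕ in atTop, (n : ℝ) ^ (1 - η) ≤ ((Ax (CMT T K a b) 0 n).card : ℝ) := by
  classical
  set θ : ℝ := min (η / 2) (1 / 2) with hθ
  have hθ0 : 0 < θ := lt_min (by linarith) (by norm_num)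
  have hθ1 : θ ≤ η / 2 := min_le_left _ _
  have hθ2 : θ ≤ 1 / 2 := min_le_right _ _
  have h1 : Tendsto (fun n : ℕ => (n : ℝ) ^ (1 - θ)) atTop atTop :=
    (tendsto_rpow_atTop (by linarith)).comp tendsto_natCast_atTop_atTop
  have h2 : Tendsto (fun n : ℕ => (n : ℝ) ^ (η - θ)) atTop atTop :=
    (tendsto_rpow_atTop (by linarith)).comp tendsto_natCast_atTop_atTop
  filter_upwards [tendsto_natCast_atTop_atTop.eventually (h θ hθ0), h1.eventually_ge_atTop 2,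
    h2.eventually_ge_atTop 2, eventually_ge_atTop 1] with n hn1 hn2 hn3 hn4
  have hn0 : (0 : ℝ) < n := by exact_mod_cast hn4
  obtain ⟨S, cc, hS, hc⟩ := hn1
  have h3 : {m : ℕ | m ∈ {m : ℕ | ∀ g ∈ S, 0 < a g (cc g) * (m : ℤ) + b g (cc g) ∧
        Prime (a g (cc g) * (m : ℤ) + b g (cc g))} ∧ (m : ℝ) ≤ n} ⊆
      ((insert 0 (Ax (CMT T K a b) 0 n) : Finset ℕ) : Set ℕ) := by
    rintro m ⟨hm, hmn⟩
    rw [Finset.mem_coe, mem_insert]
    rcases Nat.eq_zero_or_pos m with h0 | h0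
    · exact Or.inl h0
    · right
      rw [mem_Ax]
      exact ⟨⟨h0, by exact_mod_cast hmn⟩, S, hS, fun g hg => ⟨cc g, hm g hg⟩⟩
  have h4 := Set.ncard_le_ncard h3 (Finset.finite_toSet _)
  rw [Set.ncard_coe_finset] at h4
  have h5 := h4.trans (Finset.card_insert_le _ _)
  have h6 : ({m : ℕ | m ∈ {m : ℕ | ∀ g ∈ S, 0 < a g (cc g) * (m : ℤ) + b g (cc g) ∧
        Prime (a g (cc g) * (m : ℤ) + b g (cc g))} ∧ (m : ℝ) ≤ n}.ncard : ℝ) ≤
      ((Ax (CMT T K a b) 0 n).card : ℝ) + 1 := by exact_mod_cast h5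
  have h7 : (n : ℝ) ^ (1 - θ) = (n : ℝ) ^ (η - θ) * (n : ℝ) ^ (1 - η) := by
    rw [← Real.rpow_add hn0]
    congr 1
    ring
  have h8 : 0 < (n : ℝ) ^ (1 - η) := by positivity
  have h9 : (n : ℝ) ^ (1 - θ) ≤ ((Ax (CMT T K a b) 0 n).card : ℝ) + 1 := hc.trans h6
  nlinarith

open scoped Classical in
/-- Let `c > 1` be real (`c = 2`: the rescaled squares `⌊α n^2⌋`). There is `κ > 0` such that:

* (arbitrary sets) for every sequence `P 0, P 1, ...` of sets of integers there is a set `E` of real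
  numbers of Hausdorff dimension at most `1 - κ` such that for all real `α > 0` outside `E` there is `C`
  with: for all `N ≥ 1` and all `k ≤ N^κ` the number of `n ≤ N` with `⌊α n^c⌋ ∈ P k` differs from
  `∑ (1/c) α^(-1/c) m^(1/c-1)`, over the `m ∈ P k`, `m ≤ α N^c`, by at most `C N^(1-κ)`;
* (arithmetic) there is ONE set `E` of Hausdorff dimension at most `1 - κ` such that for all real
  `α > 0` outside `E`:
  - for all integers `a`, all `q ≥ 1` with `|a|, q ≤ N^κ` and all `b` the number of `n ≤ N` such that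
    `⌊α n^c⌋ + a` is a prime `≡ b mod q` differs from the sum of `(1/c) α^(-1/c) m^(1/c-1)` over the
    `m ≤ α N^c` such that `m + a` is a prime `≡ b mod q` by at most `C N^(1-κ)`;
  - for all `a` and all coprime `q`, `b`, `⌊α n^c⌋ + a` is a prime `≡ b mod q` for
    `~ N / (c φ(q) log N)` of the `n ≤ N`;
  - for all `a`, `m`, all coprime `q`, `b` and all `η > 0`, for at least `N^(1-η)` of the `n ≤ N`
    (all large `N`) the number `⌊α n^c⌋ + a` is a prime `p ≡ b mod q`, and there are at least `m` more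
    primes `≡ b mod q` in `(p, p + B m q b]`;
  - if the `T · K T` linear forms `a_{g,i} x + b_{g,i}` are distinct and have no fixed prime divisor,
    then for all `η > 0`, for at least `N^(1-η)` of the `n ≤ N` (all large `N`) at least a quarter of the
    `T` families `(a_{g,i} x + b_{g,i})_i` have a form whose value at `x = ⌊α n^c⌋` is a prime number.

The functions `B` and `K` do not depend on anything. -/
theorem result : ∃ (B : ℕ → ℕ → ℕ → ℕ) (K : ℕ → ℕ), ∀ c : ℝ, 1 < c → ∃ κ : ℝ, 0 < κ ∧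
    (∀ P : ℕ → Set ℕ, ∃ E : Set ℝ, dimH E ≤ ENNReal.ofReal (1 - κ) ∧ ∀ α : ℝ, 0 < α → α ∉ E →
      ∃ C : ℝ, ∀ N : ℕ, 1 ≤ N → ∀ k : ℕ, (k : ℝ) ≤ (N : ℝ) ^ κ →
        |(((Icc 1 N).filter (fun n : ℕ => ⌊α * (n : ℝ) ^ c⌋₊ ∈ P k)).card : ℝ) -
            ∑ m ∈ (Icc 1 ⌊α * (N : ℝ) ^ c⌋₊).filter (fun m => m ∈ P k),
              1 / c * α ^ (-(1 / c)) * (m : ℝ) ^ (1 / c - 1)| ≤ C * (N : ℝ) ^ (1 - κ)) ∧
    ∃ E : Set ℝ, dimH E ≤ ENNReal.ofReal (1 - κ) ∧ ∀ α : ℝ, 0 < α → α ∉ E →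
      (∃ C : ℝ, ∀ N : ℕ, 1 ≤ N → ∀ (a : ℤ) (q b : ℕ), |(a : ℝ)| ≤ (N : ℝ) ^ κ → 1 ≤ q →
        (q : ℝ) ≤ (N : ℝ) ^ κ →
        |(((Icc 1 N).filter (fun n : ℕ => ∃ p : ℕ, (p.Prime ∧ p ≡ b [MOD q]) ∧
              (p : ℤ) = (⌊α * (n : ℝ) ^ c⌋₊ : ℤ) + a)).card : ℝ) -
            ∑ m ∈ (Icc 1 ⌊α * (N : ℝ) ^ c⌋₊).filter (fun m : ℕ => ∃ p : ℕ, (p.Prime ∧ p ≡ b [MOD q]) ∧
              (p : ℤ) = (m : ℤ) + a), 1 / c * α ^ (-(1 / c)) * (m : ℝ) ^ (1 / c - 1)| ≤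
          C * (N : ℝ) ^ (1 - κ)) ∧
      (∀ (a : ℤ) (q b : ℕ), 0 < q → b.Coprime q →
        Tendsto (fun N : ℕ => (((Icc 1 N).filter (fun n : ℕ => ∃ p : ℕ, (p.Prime ∧ p ≡ b [MOD q]) ∧
          (p : ℤ) = (⌊α * (n : ℝ) ^ c⌋₊ : ℤ) + a)).card : ℝ) / (N / Real.log N)) atTop
          (nhds (((q.totient : ℝ)⁻¹) / c))) ∧
      (∀ (a : ℤ) (m q b : ℕ), 0 < q → b.Coprime q → ∀ η : ℝ, 0 < η → ∀ᶠ N : ℕ in atTop,
        (N : ℝ) ^ (1 - η) ≤ (((Icc 1 N).filter (fun n : ℕ => ∃ p : ℕ, (p.Prime ∧ p ≡ b [MOD q] ∧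
          m ≤ ((Ioc p (p + B m q b)).filter (fun p' => p'.Prime ∧ p' ≡ b [MOD q])).card) ∧
          (p : ℤ) = (⌊α * (n : ℝ) ^ c⌋₊ : ℤ) + a)).card : ℝ)) ∧
      (∀ (T : ℕ) (a b : Fin T → Fin (K T) → ℤ), (∀ g i, 0 < a g i) →
        Function.Injective (fun x : Fin T × Fin (K T) => (a x.1 x.2, b x.1 x.2)) →
        (∀ p : ℕ, p.Prime → ∃ n : ℤ, ∀ g i, ¬ ((p : ℤ) ∣ a g i * n + b g i)) →
        ∀ η : ℝ, 0 < η → ∀ᶠ N : ℕ in atTop, (N : ℝ) ^ (1 - η) ≤ (((Icc 1 N).filter (fun n : ℕ =>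
          ∃ S : Finset (Fin T), T ≤ 4 * S.card ∧ ∀ g ∈ S, ∃ i,
            0 < a g i * (⌊α * (n : ℝ) ^ c⌋₊ : ℤ) + b g i ∧
              Prime (a g i * (⌊α * (n : ℝ) ^ c⌋₊ : ℤ) + b g i))).card : ℝ)) := by
  classical
  have hB : ∀ m q b : ℕ, ∃ B : ℕ, 0 < q → b.Coprime q → ∀ η : ℝ, 0 < η →
      ∀ᶠ n : ℕ in atTop, (n : ℝ) ^ (1 - η) ≤ ((Ax (CL m q b B) 0 n).card : ℝ) := by
    intro m q b
    by_cases h : 0 < q ∧ b.Coprime q
    · obtain ⟨B, hB⟩ := cluster m q b h.1 h.2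
      exact ⟨B, fun _ _ => hB⟩
    · exact ⟨0, fun h1 h2 => absurd ⟨h1, h2⟩ h⟩
  choose B hB using hB
  choose K hK1 hK using quarterEv
  refine ⟨B, K, fun c hc => ?_⟩
  obtain ⟨κ, hκ, hκ1, hroom⟩ := law_room c hc
  refine ⟨κ / 8, by positivity, ?_, ?_⟩
  · intro P
    obtain ⟨E, hE, h⟩ := hroom P
    refine ⟨E, hE.trans (ENNReal.ofReal_le_ofReal (by linarith)), fun α hα hnE => ?_⟩
    obtain ⟨C, hC0, hC⟩ := h α hα hnE 1
    refine ⟨C, fun N hN k hk => ?_⟩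
    have hN1 : (1 : ℝ) ≤ N := by exact_mod_cast hN
    have h1 := hC N hN k (by
      rw [one_mul]
      exact hk.trans (Real.rpow_le_rpow_of_exponent_le hN1 (by linarith)))
    unfold dif at h1
    rw [mA_sum] at h1
    unfold Pool.Agent.Q178.RS.cnt at h1
    have h2 : (N : ℝ) ^ (1 - κ) ≤ (N : ℝ) ^ (1 - κ / 8) := Real.rpow_le_rpow_of_exponent_le hN1 (by linarith)
    have h3 := h1.trans (mul_le_mul_of_nonneg_left h2 hC0)
    convert h3 using 3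
  · obtain ⟨E1, hE1, h1⟩ := hroom seqP
    obtain ⟨E2, hE2, h2⟩ := law_countable hroom hκ (ℤ × ℕ × ℕ × ℕ)
      (fun x => shiftZ (CL x.2.1 x.2.2.1 x.2.2.2 (B x.2.1 x.2.2.1 x.2.2.2)) x.1)
    obtain ⟨E3, hE3, h3⟩ := law_countable hroom hκ
      (Σ T : ℕ, (Fin T → Fin (K T) → ℤ) × (Fin T → Fin (K T) → ℤ))
      (fun x => CMT x.1 (K x.1) x.2.1 x.2.2)
    refine ⟨E1 ∪ (E2 ∪ E3), ?_, fun α hα hnE => ?_⟩
    · rw [dimH_union, dimH_union]
      refine (max_le hE1 (max_le hE2 hE3)).trans (ENNReal.ofReal_le_ofReal (by linarith))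
    rw [Set.mem_union, Set.mem_union, not_or, not_or] at hnE
    obtain ⟨hn1, hn2, hn3⟩ := hnE
    refine ⟨?_, ?_, ?_, ?_⟩
    · obtain ⟨C, hC0, hC⟩ := h1 α hα hn1 25
      refine ⟨C, fun N hN a q b ha hq hqN => ?_⟩
      have hN1 : (1 : ℝ) ≤ N := by exact_mod_cast hN
      have hN0 : (0 : ℝ) < N := by linarith
      have hcode := code_le (b := b) hq hqN ha
      have e1 : ((N : ℝ) ^ (κ / 8)) ^ 4 = (N : ℝ) ^ (κ / 2) := by
        rw [← Real.rpow_natCast, ← Real.rpow_mul hN0.le]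
        congr 1
        push_cast
        ring
      rw [e1] at hcode
      have h4 := hC N hN _ hcode
      rw [seqP_code] at h4
      unfold dif at h4
      rw [mA_sum] at h4
      unfold Pool.Agent.Q178.RS.cnt at h4
      have h5 : (N : ℝ) ^ (1 - κ) ≤ (N : ℝ) ^ (1 - κ / 8) :=
        Real.rpow_le_rpow_of_exponent_le hN1 (by linarith)
      have h6 := h4.trans (mul_le_mul_of_nonneg_left h5 hC0)
      exact h6
    · intro a q b hq hb
      have hL : Law1 c κ (shiftZ (PQ q b) a) α := by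
        obtain ⟨C, hC0, hC⟩ := h1 α hα hn1 (code q b a)
        refine ⟨C, hC0, fun N hN => ?_⟩
        have hN1 : (1 : ℝ) ≤ N := by exact_mod_cast hN
        have h4 := hC N hN (code q b a)
          (le_mul_of_one_le_right (Nat.cast_nonneg _) (Real.one_le_rpow hN1 (by positivity)))
        rwa [seqP_code] at h4
      have h4 := cnt_prime hc hκ hκ1 hα hL (pqz_tendsto q b a hq hb)
      refine h4.congr fun N => ?_
      unfold Pool.Agent.Q178.RS.cnt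
      congr 2
    · intro a m q b hq hb η hη
      have h4 := cnt_many hc hκ hκ1 hα (h2 α hα hn2 (a, m, q, b))
        (many_shift a (hB m q b hq hb)) η hη
      filter_upwards [h4] with N hN
      refine hN.trans (le_of_eq ?_)
      unfold Pool.Agent.Q178.RS.cnt
      congr 2
    · intro T a b ha hinj hadm η hη
      have h4 := cnt_many hc hκ hκ1 hα (h3 α hα hn3 ⟨T, a, b⟩)
        (cmt_many T (K T) a b (hK T a b ha hinj hadm)) η hη
      have h5 : ∀ᶠ N : ℕ in atTop, (N : ℝ) ^ (1 - η) ≤ (Pool.Agent.Q178.RS.cnt (CMT T (K T) a b) c α N : ℝ) := h4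
      filter_upwards [h5] with N hN
      refine hN.trans (le_of_eq ?_)
      unfold Pool.Agent.Q178.RS.cnt
      congr 2
      ext n
      rw [mem_filter, mem_filter]
      exact Iff.rfl

end Pool.Agent.Results.MP_484c84_nt.RescaledSquares
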