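import Mathlib
import Pool.Agent.Q263.SW.Mer

/-!
# Primes and almost primes `n ^ 2 + 1` with restricted digits of `n`, in patterns

Fix a base `b ≥ 2` and a nonempty finite set `H` of nonnegative integers (for example `H = {0}`).
For `k ≥ 1` choose for every position `i < k` a set `D i` of at least two digits, in any way
(the sets may depend on the position and on `k`), and let `S` be the set of the integers
`0 ≤ n < b ^ k` whose `i`-th digit is in `D i` for every `i`. So `S` may have only `2 ^ k`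
elements, a small power of `b ^ k`.

Call a positive integer `N` *almost prime*, with parameters `R`, `K`, `z`, if it has at most `R`
prime factors, counted with multiplicity, and all of them are either at most `K` or larger than
`z`. There are `R`, `K`, `L` and `0 < c ≤ C`, which depend on `b` and `H` only, such that for all
large `k` and all choices of the sets of digits:

* the number of the `n ∈ S` such that `(n + h) ^ 2 + 1` is almost prime for every `h ∈ H`, with the
  parameters `R`, `K` and `z = b ^ ⌊k / L⌋`, lies between `c |S| / k ^ |H|` and `C |S| / k ^ |H|`;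
* the number of the `n ∈ S` such that `(n + h) ^ 2 + 1` is a prime for every `h ∈ H` is at most
  `C |S| / k ^ |H|`.

For `H = {0}` this is the order `|S| / log (b ^ k)` of the conjectured asymptotic count.

Idea of the proof: the sieve for the integers of `S` in a fixed residue class
(`Pool.Agent.Q263.SW`), and the theorem of Mertens for the roots of polynomials modulo primes.
-/

set_option autoImplicit false

namespace Pool.Agent.Results.MP_484c84_nt.RestrictedDigits

open Finset Polynomial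

/-- The integers `0 ≤ n < b ^ k` whose `i`-th digit in base `b` belongs to `D i`, for all `i < k`. -/
def Restricted (b k : ℕ) (D : Fin k → Finset ℕ) : Finset ℕ :=
  (Finset.range (b ^ k)).filter (fun n => ∀ i : Fin k, n / b ^ (i : ℕ) % b ∈ D i)

/-- Each `D i` is a set of at least two digits. -/
def DigitSets (b k : ℕ) (D : Fin k → Finset ℕ) : Prop :=
  ∀ i, (∀ d ∈ D i, d < b) ∧ 2 ≤ (D i).card

/-- `N` has at most `R` prime factors, counted with multiplicity, each of which is at most `K` or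
larger than `z`. -/
def AlmostPrime (R K z N : ℕ) : Prop :=
  N.primeFactorsList.length ≤ R ∧ ∀ p, p.Prime → p ∣ N → p ≤ K ∨ z < p

lemma irr0 : Irreducible ((X : ℤ[X]) ^ 2 + 1) := by
  have h := cyclotomic.irreducible (n := 4) (by norm_num)
  have e : cyclotomic 4 ℤ = (X : ℤ[X]) ^ 2 + 1 := by
    have := cyclotomic_prime_pow_eq_geom_sum (R := ℤ) (p := 2) (n := 1) Nat.prime_two
    rw [show (2 : ℕ) ^ (1 + 1) = 4 by norm_num] at this
    rw [this, Finset.sum_range_succ, Finset.sum_range_one]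
    ring
  rwa [e] at h

/-- the polynomials -/
noncomputable def fq (h : ℕ) : ℤ[X] := (X + C (h : ℤ)) ^ 2 + 1

lemma fq_irr (h : ℕ) : Irreducible (fq h) := by
  have h1 := (MulEquiv.irreducible_iff (algEquivAevalXAddC (h : ℤ)).toMulEquiv
    (x := (X : ℤ[X]) ^ 2 + 1)).2 irr0
  unfold fq
  simpa using h1

lemma fq_deg (h : ℕ) : 0 < (fq h).natDegree := by
  have : (fq h).natDegree = 2 := by
    unfold fq
    compute_degree!
  omega

lemma fq_eval (h : ℕ) (x : ℤ) : (fq h).eval x = (x + h) ^ 2 + 1 := by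
  unfold fq
  simp

/-- common divisors of the values of two of the polynomials -/
lemma common (p : ℕ) (hp : p.Prime) (x h j : ℤ) (h1 : (p : ℤ) ∣ (x + h) ^ 2 + 1)
    (h2 : (p : ℤ) ∣ (x + j) ^ 2 + 1) : (p : ℤ) ∣ (j - h) * ((j - h) ^ 2 + 4) := by
  have hpp := Nat.prime_iff_prime_int.1 hp
  have h3 : (p : ℤ) ∣ (j - h) * (2 * (x + h) + (j - h)) := by
    have := dvd_sub h2 h1
    have e : (x + j) ^ 2 + 1 - ((x + h) ^ 2 + 1) = (j - h) * (2 * (x + h) + (j - h)) := by ring
    rwa [e] at this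
  rcases hpp.dvd_or_dvd h3 with h4 | h4
  · exact h4.mul_right _
  · apply Dvd.dvd.mul_left
    have h5 : (p : ℤ) ∣ 4 * ((x + h) ^ 2 + 1) - (2 * (x + h) + (j - h)) * (2 * (x + h) - (j - h)) :=
      dvd_sub (h1.mul_left _) (h4.mul_right _)
    have e : 4 * ((x + h) ^ 2 + 1) - (2 * (x + h) + (j - h)) * (2 * (x + h) - (j - h)) =
        (j - h) ^ 2 + 4 := by ring
    rwa [e] at h5

open Classical in
theorem result : ∀ b : ℕ, 2 ≤ b → ∀ H : Finset ℕ, H.Nonempty →
    ∃ (R K L k₀ : ℕ) (c C : ℝ), 1 ≤ L ∧ 0 < c ∧ ∀ k : ℕ, k₀ ≤ k →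
      ∀ D : Fin k → Finset ℕ, DigitSets b k D →
      (c * (Restricted b k D).card / (k : ℝ) ^ H.card ≤
        (((Restricted b k D).filter
          (fun n => ∀ h ∈ H, AlmostPrime R K (b ^ (k / L)) ((n + h) ^ 2 + 1))).card : ℝ) ∧
      (((Restricted b k D).filter
          (fun n => ∀ h ∈ H, AlmostPrime R K (b ^ (k / L)) ((n + h) ^ 2 + 1))).card : ℝ) ≤
        C * (Restricted b k D).card / (k : ℝ) ^ H.card) ∧
      (((Restricted b k D).filter (fun n => ∀ h ∈ H, ((n + h) ^ 2 + 1).Prime)).card : ℝ) ≤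
        C * (Restricted b k D).card / (k : ℝ) ^ H.card := by
  intro b hb H hH
  obtain ⟨R, K, L, k₀, c, C, hL, hc, hmain⟩ := Pool.Agent.Q263.SW.both hb H hH fq
    (fun i j => ((j : ℤ) - i) * (((j : ℤ) - i) ^ 2 + 4)) (by
      intro i hi j hj hij
      constructor
      · have h1 : (j : ℤ) - i ≠ 0 := by
          intro h
          apply hij
          have : (i : ℤ) = j := by linarith
          exact_mod_cast this
        have h2 : ((j : ℤ) - i) ^ 2 + 4 ≠ 0 := by positivity
        exact mul_ne_zero h1 h2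
      · intro p x hp h3 h4
        rw [fq_eval] at h3 h4
        exact common p hp x i j h3 h4) (fun i _ => ⟨fq_irr i, fq_deg i⟩)
  refine ⟨R, K, L, k₀ + 1, c, C + 1, hL, hc, fun k hk D hD => ?_⟩
  obtain ⟨h1, h2, h3, h4⟩ := hmain k (by omega) D (fun i => (hD i).1) (fun i => (hD i).2)
  have eS : Pool.Agent.Q263.MD.Dig b k D = Restricted b k D := rfl
  rw [eS] at h1 h2 h3
  set S := Restricted b k D with hS
  set z := b ^ (k / L) with hz
  have hk1 : (0 : ℝ) < k := by exact_mod_cast (by omega : 0 < k)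
  -- the product
  have hev : ∀ (n : ℕ), ∀ h ∈ H,
      ((n + h) ^ 2 + 1) ∣ ((∏ i ∈ H, fq i).eval (n : ℤ)).natAbs := by
    intro n h hh
    have h5 : (((n + h) ^ 2 + 1 : ℕ) : ℤ) ∣ (∏ i ∈ H, fq i).eval (n : ℤ) := by
      rw [Polynomial.eval_prod]
      refine dvd_trans ?_ (Finset.dvd_prod_of_mem _ hh)
      rw [fq_eval]
      push_cast
      exact dvd_refl _
    exact Int.natCast_dvd.1 h5
  have hup : ∀ n : ℕ, (∀ h ∈ H, ∀ p ∈ Pool.Agent.Q263.SV.Pr K z, ¬ p ∣ (n + h) ^ 2 + 1) →
      ∀ p ∈ Pool.Agent.Q263.SV.Pr K z, ¬ (p : ℤ) ∣ (∏ i ∈ H, fq i).eval (n : ℤ) := by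
    intro n hn p hp hdvd
    have hpp := (Pool.Agent.Q263.SV.mem_Pr.1 hp).1
    rw [Polynomial.eval_prod, (Nat.prime_iff_prime_int.1 hpp).dvd_finsetProd_iff] at hdvd
    obtain ⟨i, hi, hdvd⟩ := hdvd
    apply hn i hi p hp
    rw [fq_eval] at hdvd
    exact_mod_cast hdvd
  have hSk : (0 : ℝ) ≤ S.card / (k : ℝ) ^ H.card := by positivity
  have hC1 : C * (S.card : ℝ) / (k : ℝ) ^ H.card + S.card / (k : ℝ) ^ H.card =
      (C + 1) * S.card / (k : ℝ) ^ H.card := by ring
  refine ⟨⟨?_, ?_⟩, ?_⟩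
  · refine h1.trans (Nat.cast_le.2 (Finset.card_le_card ?_))
    intro n hn
    rw [Finset.mem_filter] at hn ⊢
    obtain ⟨hnS, hn1, hn0, hnR, hnp⟩ := hn
    refine ⟨hnS, fun h hh => ?_⟩
    have hd := hev n h hh
    refine ⟨?_, fun p hp hpd => hnp p hp (hpd.trans hd)⟩
    refine le_trans ?_ hnR
    have hne : ((∏ i ∈ H, fq i).eval (n : ℤ)).natAbs ≠ 0 := Int.natAbs_ne_zero.2 hn0
    exact (Nat.primeFactorsList_sublist_of_dvd hd hne).length_le
  · rw [← hC1]
    refine le_trans ?_ (le_add_of_nonneg_right hSk)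
    refine le_trans (Nat.cast_le.2 (Finset.card_le_card ?_)) h2
    intro n hn
    rw [Finset.mem_filter] at hn ⊢
    refine ⟨hn.1, hup n ?_⟩
    intro h hh p hp hpd
    have h5 := (hn.2 h hh).2 p (Pool.Agent.Q263.SV.mem_Pr.1 hp).1 hpd
    have h6 := Pool.Agent.Q263.SV.mem_Pr.1 hp
    omega
  · rw [← hC1]
    have hsub : S.filter (fun n => ∀ h ∈ H, ((n + h) ^ 2 + 1).Prime) ⊆
        (S.filter (fun n : ℕ => ∀ p ∈ Pool.Agent.Q263.SV.Pr K z,
          ¬ (p : ℤ) ∣ (∏ i ∈ H, fq i).eval (n : ℤ))) ∪ Finset.range z := by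
      intro n hn
      rw [Finset.mem_filter] at hn
      rw [Finset.mem_union, Finset.mem_filter, Finset.mem_range]
      rcases Nat.lt_or_ge n z with hnz | hnz
      · right
        exact hnz
      · left
        refine ⟨hn.1, hup n ?_⟩
        intro h hh p hp hpd
        have h6 := Pool.Agent.Q263.SV.mem_Pr.1 hp
        have h7 := (Nat.prime_dvd_prime_iff_eq h6.1 (hn.2 h hh)).1 hpd
        have h8 : n ≤ (n + h) ^ 2 := by
          calc n ≤ n + h := Nat.le_add_right _ _
            _ ≤ (n + h) ^ 2 := Nat.le_self_pow (by norm_num) _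
        omega
    have h5 := (Finset.card_le_card hsub).trans (Finset.card_union_le _ _)
    rw [Finset.card_range] at h5
    have h6 : ((S.filter (fun n => ∀ h ∈ H, ((n + h) ^ 2 + 1).Prime)).card : ℝ) ≤
        ((S.filter (fun n : ℕ => ∀ p ∈ Pool.Agent.Q263.SV.Pr K z,
          ¬ (p : ℤ) ∣ (∏ i ∈ H, fq i).eval (n : ℤ))).card : ℝ) + z := by exact_mod_cast h5
    exact h6.trans (add_le_add h2 h3)

end Pool.Agent.Results.MP_484c84_nt.RestrictedDigits
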